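import Pool.Agent.U6.VE.Stm

set_option autoImplicit false

/-!
# Project VE, package ASB: the almost sure upper bound
-/

namespace Pool.Agent.U571.VEasb

open MeasureTheory ProbabilityTheory Filter Pool.Agent.U6.VE
open scoped BigOperators ENNReal NNReal Topology

theorem ee_add (a b : ℝ) : ee (a + b) = ee a * ee b := by
  unfold ee
  rw [← Complex.exp_add]
  congr 1
  push_cast
  ring

theorem ee_zero : ee 0 = 1 := by simp [ee]

theorem ee_neg (a : ℝ) : ee (-a) = (starRingEnd ℂ) (ee a) := by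
  unfold ee
  rw [← Complex.exp_conj]
  congr 1
  rw [map_mul, Complex.conj_I, Complex.conj_ofReal]
  push_cast
  ring

theorem ee_sum {ι : Type} (s : Finset ι) (f : ι → ℝ) : ee (∑ i ∈ s, f i) = ∏ i ∈ s, ee (f i) := by
  classical
  induction s using Finset.induction_on with
  | empty => simp [ee_zero]
  | insert a s ha ih => rw [Finset.sum_insert ha, Finset.prod_insert ha, ee_add, ih]

theorem norm_ee (a : ℝ) : ‖ee a‖ = 1 := by
  unfold ee
  exact Complex.norm_exp_ofReal_mul_I _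

theorem continuous_ee : Continuous ee := by
  unfold ee
  fun_prop

theorem continuous_ph {k : ℕ} : Continuous fun p : (Fin k → ℝ) × ℝ => ph p.1 p.2 := by
  unfold ph
  fun_prop

theorem sum_phase {k s : ℕ} (α : Fin k → ℝ) (y : ℕ → ℝ) (u v : Fin s → ℕ) :
    ee (∑ j : Fin k, α j * (∑ i, (y (u i)) ^ (j.val + 1) - ∑ i, (y (v i)) ^ (j.val + 1))) =
      (∏ i, ee (ph α (y (u i)))) * ∏ i, (starRingEnd ℂ) (ee (ph α (y (v i)))) := by
  have h1 : ∑ j : Fin k, α j * (∑ i, (y (u i)) ^ (j.val + 1) - ∑ i, (y (v i)) ^ (j.val + 1)) =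
      ∑ i, ph α (y (u i)) + ∑ i, (- ph α (y (v i))) := by
    unfold ph
    simp only [mul_sub, Finset.mul_sum, Finset.sum_sub_distrib, Finset.sum_neg_distrib]
    rw [Finset.sum_comm, sub_eq_add_neg]
    congr 2
    rw [Finset.sum_comm]
  rw [h1, ee_add, ee_sum, ee_sum]
  simp only [ee_neg]

theorem sol_le {k : ℕ} {C : ℝ} (hC : ∀ (Y : Type) [MeasurableSpace Y]
    (μ : Measure Y) [IsFiniteMeasure μ] (γ : Y → Fin k → ℝ), Measurable γ →
    μ.real {y : Y | ∀ j, |γ y j| < 1} ≤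
      C * ∫ α in box k (1 / 2), ‖∫ y, ee (∑ j, α j * γ y j) ∂μ‖) (s N : ℕ) (x : ℕ → ℝ) :
    ((Sol s k N x).card : ℝ) ≤ C * ∫ α in box k (1 / 2), ‖SM x N α‖ ^ (2 * s) := by
  classical
  let T : Finset ((Fin s → ℕ) × (Fin s → ℕ)) :=
    ((Fintype.piFinset fun _ : Fin s => Finset.Icc 1 N) ×ˢ
      (Fintype.piFinset fun _ : Fin s => Finset.Icc 1 N))
  let γ : T → Fin k → ℝ := fun p j =>
    ∑ i, ((p.1.1 i : ℝ) + x (p.1.1 i)) ^ (j.val + 1) -
      ∑ i, ((p.1.2 i : ℝ) + x (p.1.2 i)) ^ (j.val + 1)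
  have hγ : Measurable γ := measurable_of_countable γ
  have h1 := hC T Measure.count γ hγ
  have h2 : (Measure.count : Measure T).real {y | ∀ j, |γ y j| < 1} = ((Sol s k N x).card : ℝ) := by
    have hE : MeasurableSet {y : T | ∀ j, |γ y j| < 1} := Set.Countable.measurableSet (Set.to_countable _)
    rw [← integral_indicator_one hE, integral_count]
    have h5 : ∀ p : T, ({y : T | ∀ j, |γ y j| < 1}.indicator (1 : T → ℝ)) p =
        (fun q : (Fin s → ℕ) × (Fin s → ℕ) => if (∀ j : Fin k,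
          |∑ i, ((q.1 i : ℝ) + x (q.1 i)) ^ (j.val + 1) -
          ∑ i, ((q.2 i : ℝ) + x (q.2 i)) ^ (j.val + 1)| < 1) then (1 : ℝ) else 0) p := by
      intro p
      by_cases hp : ∀ j, |γ p j| < 1
      · rw [Set.indicator_of_mem (show p ∈ {y : T | ∀ j, |γ y j| < 1} from hp)]
        exact (if_pos hp).symm
      · rw [Set.indicator_of_notMem (show p ∉ {y : T | ∀ j, |γ y j| < 1} from hp)]
        exact (if_neg hp).symm
    rw [Finset.sum_congr rfl (fun p _ => h5 p)]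
    rw [Finset.sum_coe_sort T (fun q : (Fin s → ℕ) × (Fin s → ℕ) => if (∀ j : Fin k,
          |∑ i, ((q.1 i : ℝ) + x (q.1 i)) ^ (j.val + 1) -
          ∑ i, ((q.2 i : ℝ) + x (q.2 i)) ^ (j.val + 1)| < 1) then (1 : ℝ) else 0)]
    rw [Finset.sum_boole]
    unfold Sol
    congr 2
  have h3 : ∀ α : Fin k → ℝ, ‖∫ y, ee (∑ j, α j * γ y j) ∂(Measure.count : Measure T)‖ =
      ‖SM x N α‖ ^ (2 * s) := by
    intro α
    rw [integral_count]
    have h6 : ∀ p : T, ee (∑ j, α j * γ p j) =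
        (fun q : (Fin s → ℕ) × (Fin s → ℕ) =>
          (∏ i, ee (ph α ((q.1 i : ℝ) + x (q.1 i)))) *
            ∏ i, (starRingEnd ℂ) (ee (ph α ((q.2 i : ℝ) + x (q.2 i))))) p := by
      intro p
      exact sum_phase α (fun n => (n : ℝ) + x n) p.1.1 p.1.2
    rw [Finset.sum_congr rfl (fun p _ => h6 p)]
    rw [Finset.sum_coe_sort T (fun q : (Fin s → ℕ) × (Fin s → ℕ) =>
          (∏ i, ee (ph α ((q.1 i : ℝ) + x (q.1 i)))) *
            ∏ i, (starRingEnd ℂ) (ee (ph α ((q.2 i : ℝ) + x (q.2 i)))))]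
    change ‖∑ q ∈ (Fintype.piFinset fun _ : Fin s => Finset.Icc 1 N) ×ˢ
      (Fintype.piFinset fun _ : Fin s => Finset.Icc 1 N), _‖ = _
    rw [Finset.sum_product]
    simp only
    rw [← Finset.sum_mul_sum]
    rw [← Finset.prod_univ_sum (fun _ : Fin s => Finset.Icc 1 N)
      (fun _ n => ee (ph α ((n : ℝ) + x n)))]
    rw [← Finset.prod_univ_sum (fun _ : Fin s => Finset.Icc 1 N)
      (fun _ n => (starRingEnd ℂ) (ee (ph α ((n : ℝ) + x n))))]
    rw [Finset.prod_const, Finset.prod_const, Finset.card_univ, Fintype.card_fin, ← map_sum]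
    rw [norm_mul, norm_pow, norm_pow, RCLike.norm_conj, two_mul, pow_add]
    rfl
  rw [h2] at h1
  simpa only [h3] using h1

section
variable {k : ℕ} {Ω : Type} [MeasurableSpace Ω] {P : Measure Ω} {D : ℝ≥0} {θ : ℕ → Ω → ℝ}

theorem law_of (hM : Model P D θ) : Law D (fun n => P.map (θ n)) where
  prob n := by
    have := hM.prob
    exact Measure.isProbabilityMeasure_map (hM.meas n).aemeasurable
  dens n := hM.dens n

theorem continuous_im {ν : ℕ → Measure ℝ} (hν : ∀ n, IsProbabilityMeasure (ν n)) (n : ℕ) :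
    Continuous (fun α : Fin k → ℝ => im ν n α) := by
  have := hν n
  unfold im
  refine continuous_of_dominated (bound := fun _ => (1 : ℝ)) ?_ ?_ ?_ ?_
  · intro α
    have h : Continuous fun t : ℝ => ee (ph α ((n : ℝ) + t)) :=
      continuous_ee.comp (continuous_ph.comp (continuous_const.prodMk (continuous_const.add continuous_id)))
    exact h.aestronglyMeasurable
  · intro α
    exact ae_of_all _ fun t => (norm_ee _).le
  · exact integrable_const _
  · refine ae_of_all _ fun t => ?_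
    exact continuous_ee.comp (continuous_ph.comp (continuous_id.prodMk continuous_const))

theorem norm_im_le {ν : ℕ → Measure ℝ} (hν : ∀ n, IsProbabilityMeasure (ν n)) (n : ℕ)
    (α : Fin k → ℝ) : ‖im ν n α‖ ≤ 1 := by
  have := hν n
  unfold im
  have h := norm_integral_le_of_norm_le_const (μ := ν n) (f := fun t : ℝ => ee (ph α ((n : ℝ) + t)))
    (C := 1) (ae_of_all _ fun t => (norm_ee _).le)
  simpa using h

theorem continuous_IM {ν : ℕ → Measure ℝ} (hν : ∀ n, IsProbabilityMeasure (ν n)) (N : ℕ) :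
    Continuous (fun α : Fin k → ℝ => IM ν N α) := by
  unfold IM
  exact continuous_finsetSum _ fun n _ => continuous_im hν n

theorem norm_IM_le {ν : ℕ → Measure ℝ} (hν : ∀ n, IsProbabilityMeasure (ν n)) (N : ℕ)
    (α : Fin k → ℝ) : ‖IM ν N α‖ ≤ N := by
  unfold IM
  refine (norm_sum_le _ _).trans ((Finset.sum_le_sum fun n _ => norm_im_le hν n α).trans ?_)
  simp

theorem continuous_SM (x : ℕ → ℝ) (N : ℕ) : Continuous (fun α : Fin k → ℝ => SM x N α) := by
  unfold SM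
  exact continuous_finsetSum _ fun n _ =>
    continuous_ee.comp (continuous_ph.comp (continuous_id.prodMk continuous_const))

theorem norm_SM_le (x : ℕ → ℝ) (N : ℕ) (α : Fin k → ℝ) : ‖SM x N α‖ ≤ N := by
  unfold SM
  refine (norm_sum_le _ _).trans ((Finset.sum_le_sum fun n _ => (norm_ee _).le).trans ?_)
  simp

theorem norm_RM_le (hM : Model P D θ) (N : ℕ) (α : Fin k → ℝ) (ω : Ω) :
    ‖RM P θ N α ω‖ ≤ 2 * N := by
  unfold RM
  refine (norm_sub_le _ _).trans ?_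
  have h1 := norm_SM_le (fun n => θ n ω) N α
  have h2 := norm_IM_le (law_of hM).prob N α
  linarith

theorem continuous_RM (hM : Model P D θ) (N : ℕ) (ω : Ω) :
    Continuous (fun α : Fin k → ℝ => RM P θ N α ω) := by
  unfold RM
  exact (continuous_SM _ N).sub (continuous_IM (law_of hM).prob N)

theorem measurable_RM (hM : Model P D θ) (N : ℕ) :
    Measurable (fun q : Ω × (Fin k → ℝ) => RM P θ N q.2 q.1) := by
  unfold RM
  refine Measurable.sub ?_ ?_
  · unfold SM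
    refine Finset.measurable_fun_sum _ fun n _ => ?_
    have h1 : Measurable (fun q : Ω × (Fin k → ℝ) => (q.2, (n : ℝ) + θ n q.1)) :=
      measurable_snd.prodMk (measurable_const.add ((hM.meas n).comp measurable_fst))
    have h2 : Measurable (fun p : (Fin k → ℝ) × ℝ => ee (ph p.1 p.2)) :=
      (continuous_ee.comp continuous_ph).measurable
    exact h2.comp h1
  · exact (continuous_IM (law_of hM).prob N).measurable.comp measurable_snd

theorem measurable_ZZ (hM : Model P D θ) (s N : ℕ) : Measurable (ZZ k s P θ N) := by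
  have h : StronglyMeasurable (Function.uncurry fun (ω : Ω) (α : Fin k → ℝ) =>
      ‖RM P θ N α ω‖ ^ (2 * s)) := by
    refine Measurable.stronglyMeasurable ?_
    exact (measurable_RM hM N).norm.pow_const _
  exact (h.integral_prod_right (ν := volume.restrict (box k (1 / 2)))).measurable

theorem box_finite (k : ℕ) (S : ℝ) : volume (box k S) < ⊤ := isCompact_Icc.measure_lt_top

theorem intOn {f : (Fin k → ℝ) → ℝ} (hf : Continuous f) (S : ℝ) : IntegrableOn f (box k S) :=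
  hf.continuousOn.integrableOn_compact isCompact_Icc

theorem ZZ_le (hM : Model P D θ) (s N : ℕ) (ω : Ω) :
    ‖ZZ k s P θ N ω‖ ≤ (2 * N) ^ (2 * s) * volume.real (box k (1 / 2)) := by
  unfold ZZ
  refine norm_setIntegral_le_of_norm_le_const (box_finite k _) fun α _ => ?_
  rw [norm_pow, norm_norm]
  exact pow_le_pow_left₀ (norm_nonneg _) (norm_RM_le hM N α ω) _

theorem int_SM_le (hM : Model P D θ) (s N : ℕ) (ω : Ω) :
    ∫ α in box k (1 / 2), ‖SM (fun n => θ n ω) N α‖ ^ (2 * s) ≤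
      2 ^ (2 * s - 1) * ((∫ α in box k (1 / 2), ‖IM (fun n => P.map (θ n)) N α‖ ^ (2 * s)) +
        ZZ k s P θ N ω) := by
  unfold ZZ
  have i1 : IntegrableOn (fun α : Fin k → ℝ => ‖IM (fun n => P.map (θ n)) N α‖ ^ (2 * s))
      (box k (1 / 2)) := intOn ((continuous_IM (law_of hM).prob N).norm.pow _) _
  have i2 : IntegrableOn (fun α : Fin k → ℝ => ‖RM P θ N α ω‖ ^ (2 * s))
      (box k (1 / 2)) := intOn ((continuous_RM hM N ω).norm.pow _) _
  have i3 : IntegrableOn (fun α : Fin k → ℝ => ‖SM (fun n => θ n ω) N α‖ ^ (2 * s))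
      (box k (1 / 2)) := intOn ((continuous_SM _ N).norm.pow _) _
  rw [← integral_add i1 i2, ← integral_const_mul]
  refine setIntegral_mono_on i3 ((i1.add i2).const_mul _) measurableSet_Icc fun α _ => ?_
  have h1 : ‖SM (fun n => θ n ω) N α‖ ≤ ‖IM (fun n => P.map (θ n)) N α‖ + ‖RM P θ N α ω‖ := by
    have : SM (fun n => θ n ω) N α = IM (fun n => P.map (θ n)) N α + RM P θ N α ω := by
      unfold RM; ring
    rw [this]
    exact norm_add_le _ _
  refine (pow_le_pow_left₀ (norm_nonneg _) h1 _).trans ?_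
  exact add_pow_le (norm_nonneg _) (norm_nonneg _) _

end

theorem sol_mono (s k : ℕ) (x : ℕ → ℝ) {N M : ℕ} (h : N ≤ M) :
    (Sol s k N x).card ≤ (Sol s k M x).card := by
  refine Finset.card_le_card ?_
  unfold Sol
  refine Finset.filter_subset_filter _ (Finset.product_subset_product ?_ ?_) <;>
  exact Fintype.piFinset_subset _ _ fun _ => Finset.Icc_subset_Icc le_rfl h

theorem rpow_cmp {N M l e : ℝ} (hN : 0 < N) (h1 : N ≤ M) (h2 : M ≤ l * N) (hl : 1 ≤ l) :
    M ^ e ≤ l ^ |e| * N ^ e := by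
  rcases le_or_gt 0 e with he | he
  · rw [abs_of_nonneg he, ← Real.mul_rpow (by linarith) hN.le]
    exact Real.rpow_le_rpow (hN.le.trans h1) h2 he
  · have h3 : M ^ e ≤ N ^ e := Real.rpow_le_rpow_of_nonpos hN h1 he.le
    have h4 : 1 ≤ l ^ |e| := Real.one_le_rpow hl (abs_nonneg e)
    have h5 : 0 ≤ N ^ e := Real.rpow_nonneg hN.le e
    nlinarith

theorem t_ASB : T_ASB := by
  intro hFJ hG hV k s D hk hs Ω _ P θ hM
  have := hM.prob
  obtain ⟨C1, hC1, hFJ⟩ := hFJ k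
  obtain ⟨C2, hC2, hG⟩ := hG k (1 / 2) D s hk (by norm_num)
  obtain ⟨C3, hC3, hV⟩ := hV k s D hk hs
  have hV := hV Ω P θ hM
  have hG := hG (fun n => P.map (θ n)) (law_of hM)
  -- the exceptional events
  let E : ℕ → Set Ω := fun i => {ω | (C3 + 1) * (((2 ^ i : ℕ) : ℝ) ^ s) < ZZ k s P θ (2 ^ i) ω}
  have hE : ∀ i, P (E i) ≤ ENNReal.ofReal (C3 * ((2 : ℝ) ^ (-(1 / 2 : ℝ))) ^ i) := by
    intro i
    set N : ℕ := 2 ^ i with hN
    have hN1 : 1 ≤ N := Nat.one_le_two_pow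
    have hNr : (0 : ℝ) < N := by exact_mod_cast hN1
    obtain ⟨v1, v2⟩ := hV N hN1
    set m : ℝ := ∫ ω', ZZ k s P θ N ω' ∂P with hm
    have hint : Integrable (fun ω => (ZZ k s P θ N ω - m) ^ 2) P := by
      refine Integrable.of_bound
        (((measurable_ZZ hM s N).sub_const m).pow_const 2).aestronglyMeasurable
        (((2 * N) ^ (2 * s) * volume.real (box k (1 / 2)) + |m|) ^ 2) (ae_of_all _ fun ω => ?_)
      rw [norm_pow]
      refine pow_le_pow_left₀ (norm_nonneg _) ((norm_sub_le _ _).trans ?_) 2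
      exact add_le_add (ZZ_le hM s N ω) le_rfl
    have hmk := mul_meas_ge_le_integral_of_nonneg (μ := P)
      (f := fun ω => (ZZ k s P θ N ω - m) ^ 2) (ae_of_all _ fun ω => sq_nonneg _) hint
      (((N : ℝ) ^ s) ^ 2)
    have hsub : E i ⊆ {ω | ((N : ℝ) ^ s) ^ 2 ≤ (ZZ k s P θ N ω - m) ^ 2} := by
      intro ω hω
      have h1 : (C3 + 1) * ((N : ℝ) ^ s) < ZZ k s P θ N ω := hω
      have h2 : (N : ℝ) ^ s ≤ ZZ k s P θ N ω - m := by nlinarith
      exact pow_le_pow_left₀ (by positivity) h2 2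
    have hP : P.real (E i) ≤ C3 * ((2 : ℝ) ^ (-(1 / 2 : ℝ))) ^ i := by
      have h3 : P.real (E i) ≤ P.real {ω | ((N : ℝ) ^ s) ^ 2 ≤ (ZZ k s P θ N ω - m) ^ 2} :=
        measureReal_mono hsub
      have h4 : ((N : ℝ) ^ s) ^ 2 * P.real (E i) ≤ C3 * (N : ℝ) ^ (2 * (s : ℝ) - 1 / 2) :=
        (mul_le_mul_of_nonneg_left h3 (by positivity)).trans (hmk.trans v2)
      have h5 : (N : ℝ) ^ (2 * (s : ℝ) - 1 / 2) = ((N : ℝ) ^ s) ^ 2 * ((2 : ℝ) ^ (-(1 / 2 : ℝ))) ^ i := by
        rw [← pow_mul, ← Real.rpow_natCast (N : ℝ) (s * 2), sub_eq_add_neg, Real.rpow_add hNr]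
        congr 1
        · congr 1; push_cast; ring
        · rw [hN]
          push_cast
          rw [← Real.rpow_natCast, ← Real.rpow_natCast, ← Real.rpow_mul (by norm_num),
            ← Real.rpow_mul (by norm_num), mul_comm]
      rw [h5] at h4
      have h6 : (0 : ℝ) < ((N : ℝ) ^ s) ^ 2 := by positivity
      have h7 : ((N : ℝ) ^ s) ^ 2 * P.real (E i) ≤
          ((N : ℝ) ^ s) ^ 2 * (C3 * ((2 : ℝ) ^ (-(1 / 2 : ℝ))) ^ i) := by
        rw [show ((N : ℝ) ^ s) ^ 2 * (C3 * ((2 : ℝ) ^ (-(1 / 2 : ℝ))) ^ i) =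
          C3 * (((N : ℝ) ^ s) ^ 2 * ((2 : ℝ) ^ (-(1 / 2 : ℝ))) ^ i) by ring]
        exact h4
      exact le_of_mul_le_mul_left h7 h6
    rw [← ofReal_measureReal (μ := P) (s := E i)]
    exact ENNReal.ofReal_le_ofReal hP
  have hsum : ∑' i, P (E i) ≠ ⊤ := by
    have hr : Summable fun i : ℕ => C3 * ((2 : ℝ) ^ (-(1 / 2 : ℝ))) ^ i := by
      refine (summable_geometric_of_lt_one (by positivity) ?_).mul_left _
      exact Real.rpow_lt_one_of_one_lt_of_neg (by norm_num) (by norm_num)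
    exact ne_top_of_le_ne_top hr.tsum_ofReal_ne_top (ENNReal.tsum_le_tsum hE)
  filter_upwards [ae_eventually_notMem hsum] with ω hω
  obtain ⟨i0, hi0⟩ := eventually_atTop.1 hω
  -- the bound along the powers of two
  have hmain : ∀ i, i0 ≤ i → ((Sol s k (2 ^ i) (fun n => θ n ω)).card : ℝ) ≤
      C1 * (2 ^ (2 * s - 1) * (C2 * (((2 ^ i : ℕ) : ℝ) ^ s +
        ((2 ^ i : ℕ) : ℝ) ^ (2 * (s : ℝ) - k * (k + 1) / 2)) + (C3 + 1) * ((2 ^ i : ℕ) : ℝ) ^ s)) := by
    intro i hi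
    have h1 := sol_le hFJ s (2 ^ i) (fun n => θ n ω)
    have h2 := int_SM_le (k := k) hM s (2 ^ i) ω
    have h3 := hG (2 ^ i) Nat.one_le_two_pow
    have h4 : ZZ k s P θ (2 ^ i) ω ≤ (C3 + 1) * (((2 ^ i : ℕ) : ℝ) ^ s) := not_lt.1 (hi0 i hi)
    refine h1.trans (mul_le_mul_of_nonneg_left (h2.trans ?_) hC1)
    exact mul_le_mul_of_nonneg_left (add_le_add h3 h4) (by positivity)
  set l : ℝ := 2 ^ (i0 + 1) with hl
  have hl1 : 1 ≤ l := one_le_pow₀ (by norm_num)
  set e : ℝ := 2 * (s : ℝ) - k * (k + 1) / 2 with he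
  refine ⟨C1 * (2 ^ (2 * s - 1) * (C2 * (l ^ s + l ^ |e|) + (C3 + 1) * l ^ s)), fun N hN => ?_⟩
  have hNr : (0 : ℝ) < N := by exact_mod_cast hN
  have a1 : 2 ^ Nat.log 2 N ≤ N := Nat.pow_log_le_self 2 (by omega)
  have a2 : N < 2 ^ (Nat.log 2 N + 1) := Nat.lt_pow_succ_log_self (by norm_num) N
  have a3 : N ≤ 2 ^ (i0 + (Nat.log 2 N + 1)) :=
    a2.le.trans (Nat.pow_le_pow_right (by norm_num) (by omega))
  have b1 := hmain (i0 + (Nat.log 2 N + 1)) (by omega)
  have b2 : ((Sol s k N (fun n => θ n ω)).card : ℝ) ≤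
      ((Sol s k (2 ^ (i0 + (Nat.log 2 N + 1))) (fun n => θ n ω)).card : ℝ) := by
    exact_mod_cast sol_mono s k _ a3
  set M : ℝ := ((2 ^ (i0 + (Nat.log 2 N + 1)) : ℕ) : ℝ) with hMdef
  have c1 : (N : ℝ) ≤ M := by rw [hMdef]; exact_mod_cast a3
  have c2 : M ≤ l * N := by
    have : M = l * ((2 ^ Nat.log 2 N : ℕ) : ℝ) := by
      rw [hMdef, hl]; push_cast; ring
    rw [this]
    exact mul_le_mul_of_nonneg_left (by exact_mod_cast a1) (by linarith)
  have d1 : M ^ s ≤ l ^ s * (N : ℝ) ^ s := by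
    rw [← mul_pow]
    exact pow_le_pow_left₀ (hNr.le.trans c1) c2 s
  have d2 : M ^ e ≤ l ^ |e| * (N : ℝ) ^ e := rpow_cmp hNr c1 c2 hl1
  have n1 : (0 : ℝ) ≤ (N : ℝ) ^ s := by positivity
  have n2 : (0 : ℝ) ≤ (N : ℝ) ^ e := Real.rpow_nonneg hNr.le e
  have n3 : (0 : ℝ) ≤ l ^ s := by positivity
  have n4 : (0 : ℝ) ≤ l ^ |e| := Real.rpow_nonneg (by linarith) _
  refine b2.trans (b1.trans ?_)
  rw [mul_assoc C1, mul_assoc ((2 : ℝ) ^ (2 * s - 1))]
  refine mul_le_mul_of_nonneg_left (mul_le_mul_of_nonneg_left ?_ (by positivity)) hC1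
  have f1 : C2 * (M ^ s + M ^ e) ≤ C2 * (l ^ s * (N : ℝ) ^ s + l ^ |e| * (N : ℝ) ^ e) :=
    mul_le_mul_of_nonneg_left (add_le_add d1 d2) hC2
  have f2 : (C3 + 1) * M ^ s ≤ (C3 + 1) * (l ^ s * (N : ℝ) ^ s) :=
    mul_le_mul_of_nonneg_left d1 (by linarith)
  have g1 : 0 ≤ C2 * (l ^ s * (N : ℝ) ^ e) := by positivity
  have g2 : 0 ≤ C2 * (l ^ |e| * (N : ℝ) ^ s) := by positivity
  have g3 : 0 ≤ (C3 + 1) * (l ^ s * (N : ℝ) ^ e) := by positivity
  nlinarith

end Pool.Agent.U571.VEasb
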